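import Pool.Agent.EFA.Stmts

/-!
Squad EFA, row FIN: the theorem.
-/

set_option autoImplicit false

open Nat.Partrec (Code)
open Pool.Agent.Helper25TD

namespace Pool.Agent.EFA.H2

open Pool.Agent.EFA

theorem computable_even : Computable (bo fun x => x % 2 = 0) := by
  have h : (bo fun x => x % 2 = 0) = fun n => !(Nat.bodd n) := by
    funext n
    unfold bo
    have h1 := Nat.mod_two_of_bodd n
    cases h2 : Nat.bodd n with
    | false =>
      rw [h2] at h1
      simpa using h1
    | true =>
      rw [h2] at h1
      have h3 : n % 2 = 1 := by simpa using h1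
      simp [h3]
  rw [h]
  exact (Primrec.not.comp Primrec.nat_bodd).to_comp

theorem partrec_chi {x : ℕ → Bool} (h : Computable x) : Nat.Partrec (chi x) := by
  refine Partrec.nat_iff.1 ?_
  have h1 : Computable fun n => (x n).toNat := by
    have h2 : Primrec fun b : Bool => b.toNat := Primrec.dom_finite _
    exact h2.to_comp.comp h
  exact h1.partrec

theorem fin (hREC : RecStmt) (hUPP : UppStmt) (hKLS : KlsStmt) (hSPR : SprStmt)
    (hCOD : CodStmt) (hCON : ConStmt) (hCMP : CmpStmt) : FinStmt := by
  intro F hE hF A hA
  refine ⟨?_, hUPP F hE hF A hA⟩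
  obtain ⟨hEre, hEc⟩ := hREC F hE (fun x => x % 2 = 0) computable_even
  obtain ⟨ψ, hψ, hψ2⟩ := hF (fun x => x % 2 = 0) hEre
  have hψp : Nat.Partrec ψ := by
    refine Nat.RecursiveIn.partrec_of_oracle ?_ hψ
    intro g hg
    rw [Set.mem_singleton_iff] at hg
    rw [hg]
    exact partrec_chi hEc
  obtain ⟨V, N, hV, hN, hVG, hmod⟩ := hKLS (fun R y => bo (F R) y) ψ hψp hψ2
  obtain ⟨r, hr, hgap, hbd⟩ := hSPR N hN
  obtain ⟨hYre, hAY, hYA⟩ := hCOD r hr hgap A hA
  have hmono : StrictMono r := strictMono_nat_of_lt_succ fun k => by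
    have := hgap k
    omega
  have hle : ∀ x, x ≤ r x := fun x => hmono.id_le x
  have hkey : Le (F fun z => ∃ x, A x ∧ r x = z) (fun z => ∃ x, A x ∧ r x = z) := by
    have hYgap : ∀ k x, r k < x → x < r (k + 1) → ¬ ∃ x', A x' ∧ r x' = x := by
      rintro k x h1 h2 ⟨x', -, rfl⟩
      have h3 := hmono.lt_iff_lt.1 h1
      have h4 := hmono.lt_iff_lt.1 h2
      omega
    generalize hYdef : (fun z => ∃ x, A x ∧ r x = z) = Y at *
    have hYgap' : ∀ k x, r k < x → x < r (k + 1) → ¬ Y x := by
      intro k x h1 h2 h3
      rw [← hYdef] at h3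
      exact hYgap k x h1 h2 h3
    by_cases h : ∀ y j, (∀ x, Nat.testBit j x = (decide (x < r y + 1) && bo Y x)) →
        V j y = (bo (F Y) y).toNat
    · exact hCMP V hV r hr Y (F Y) h
    · push Not at h
      obtain ⟨y, j, hj, hne⟩ := h
      have hall : ∀ H : ℕ → Prop, REPred H → Le H (F Y) := by
        refine hCON F hF Y hYre (fun x => r x + 1) (Computable.succ.comp hr) ?_ ?_ ?_ y (r (y + 1)) ?_
        · intro a b hab
          have : r a + 1 = r b + 1 := hab
          exact hmono.injective (by omega)
        · intro x
          have := hle x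
          change x < r x + 1
          omega
        · intro x
          have := hgap x
          exact hYgap' x (r x + 1) (by omega) (by omega)
        · intro j' hj'
          have hlt : j < 2 ^ (r y + 1) := by
            refine Nat.lt_pow_two_of_testBit _ fun i hi => ?_
            rw [hj i]
            have : ¬ i < r y + 1 := by omega
            simp [this]
          have hN' := hbd y j y hlt le_rfl
          have h1 : bo (F (fs j')) y = bo (F (fs j)) y := by
            refine hmod j y j' fun x hx => ?_
            have hx' : x < r (y + 1) := lt_of_lt_of_le hx hN'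
            rw [hj' x hx', hj x]
            by_cases h2 : x < r y + 1
            · simp [h2]
            · have h3 : ¬ Y x := hYgap' y x (by omega) hx'
              simp [h2, bo, h3]
          rw [h1]
          intro h4
          refine hne ?_
          rw [hVG j y, h4]
      have hFY := hE.re Y hYre
      exact (hE.iff (F Y) Y hFY hYre).2 (hall _ (hE.re _ hFY))
  have h1 : Le (F A) (F fun z => ∃ x, A x ∧ r x = z) := (hE.iff A _ hA hYre).1 hAY
  exact TLE.trans h1 (TLE.trans hkey hYA)

end Pool.Agent.EFA.H2
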